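import Pool.Agent.H96.PSSpace

set_option autoImplicit false
open Filter Topology

namespace Pool.Agent.Results.MP_ffb385_an.Spaceable
open Pool.Agent.H96.Lacunary Pool.Agent.H96.PSAlg Pool.Agent.H96.PSSpace

/-- smoothness on the unit interval, with one-sided derivatives at the ends -/
def Smooth {K : Type} [RCLike K] (g : Set.Icc (0 : ℝ) 1 → K) : Prop :=
  ContDiffOn ℝ (⊤ : ℕ∞) (Set.IccExtend zero_le_one g) (Set.Icc 0 1)

/-- the n-th derivative on the unit interval -/
noncomputable def der {K : Type} [RCLike K] (n : ℕ) (g : Set.Icc (0 : ℝ) 1 → K)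
    (x : Set.Icc (0 : ℝ) 1) : K :=
  iteratedDerivWithin n (Set.IccExtend zero_le_one g) (Set.Icc 0 1) x

theorem ext_eq {K : Type} [RCLike K] (G : ℝ → K) :
    Set.EqOn (Set.IccExtend zero_le_one (fun x : Set.Icc (0 : ℝ) 1 => G x)) G (Set.Icc 0 1) := by
  intro x hx
  rw [Set.IccExtend_of_mem _ _ hx]

/-- smooth functions form a subspace -/
def smoothSub (K : Type) [RCLike K] : Submodule K (Set.Icc (0 : ℝ) 1 → K) where
  carrier := {g | Smooth g}
  add_mem' := fun {f g} hf hg => ContDiffOn.add hf hg
  zero_mem' := contDiffOn_const (c := (0 : K))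
  smul_mem' := fun a g hg => ContDiffOn.mul (contDiffOn_const (c := a)) hg

/-- For real or complex scalars there is a closed infinite-dimensional subspace of the smooth
functions on the unit interval whose nonzero members are Pringsheim singular at every point. -/
theorem result (K : Type) [RCLike K] :
    ∃ V : Submodule K (Set.Icc (0 : ℝ) 1 → K), (∀ g ∈ V, Smooth g) ∧ ¬ FiniteDimensional K V ∧
      (∀ (g : ℕ → Set.Icc (0 : ℝ) 1 → K) (f : Set.Icc (0 : ℝ) 1 → K), (∀ k, g k ∈ V) → Smooth f →
        (∀ n, TendstoUniformly (fun k => der n (g k)) (der n f) atTop) → f ∈ V) ∧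
      ∀ g ∈ V, g ≠ 0 → ∀ x, (FormalMultilinearSeries.ofScalars K
        (fun n : ℕ => der n g x / (n.factorial : K))).radius = 0 := by
  classical
  obtain ⟨M, hM⟩ := exists_M (K := K)
  have hle : ∀ (c : BoundedContinuousFunction ℕ K) (x : Set.Icc (0 : ℝ) 1),
      ‖Phi M c x‖ ≤ 2 * ‖c‖ := fun c x => WW_le M c ‖c‖ c.norm_coe_le_norm x
  have hge : ∀ (c : BoundedContinuousFunction ℕ K) (e : ℝ), (∀ x, ‖Phi M c x‖ ≤ e) → ‖c‖ ≤ 2 * e :=
    fun c e h => WW_ge M c e fun x hx => h ⟨x, hx⟩
  have hinj : Function.Injective (Phi (K := K) M) := by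
    rw [injective_iff_map_eq_zero]
    intro c hc
    have := hge c 0 (fun x => by rw [hc]; simp)
    exact norm_le_zero_iff.mp (by linarith)
  refine ⟨LinearMap.range (Phi M) ⊓ smoothSub K, fun g hg => hg.2, ?_, ?_, ?_⟩
  · intro hfin
    let e : ℕ → BoundedContinuousFunction ℕ K := fun j =>
      BoundedContinuousFunction.ofNormedAddCommGroupDiscrete (Pi.single j (1 : K)) 1 (by
        intro i; by_cases h : i = j
        · subst h; simp
        · simp [h])
    have he : ∀ j i, e j i = (Pi.single j (1 : K) : ℕ → K) i := fun j i => rfl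
    have hsm : ∀ j, Smooth (Phi M (e j)) := by
      intro j
      refine ContDiffOn.congr ?_ (ext_eq (WW M (e j)))
      apply ContDiff.contDiffOn
      refine ContDiff.add ?_ (lac_smooth M _ ‖e j‖ (fun k => (e j).norm_coe_le_norm _))
      have : UU (e j) = fun x => bump j x • (1 : K) := by
        funext x
        rw [UU, tsum_eq_single j, he, Pi.single_eq_same]
        intro i hi
        rw [he, Pi.single_eq_of_ne hi, smul_zero]
      rw [this]
      exact (bump j).contDiff.smul contDiff_const
    have hli : LinearIndependent K e := by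
      rw [linearIndependent_iff']
      intro s a h i hi
      have := DFunLike.congr_fun h i
      rw [BoundedContinuousFunction.sum_apply, Finset.sum_eq_single i] at this
      · simpa [he] using this
      · intro j _ hj
        simp [he, Pi.single_eq_of_ne hj.symm]
      · exact fun h => absurd hi h
    have hli2 : LinearIndependent K (fun j => (⟨Phi M (e j), ⟨e j, rfl⟩, hsm j⟩ :
        (LinearMap.range (Phi M) ⊓ smoothSub K : Submodule K _))) :=
      LinearIndependent.of_comp (Submodule.subtype _) (hli.map' (Phi M) (LinearMap.ker_eq_bot.mpr hinj))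
    have := hli2.finite
    exact not_finite ℕ
  · intro g f hg hf hlim
    refine ⟨?_, hf⟩
    have h0 : TendstoUniformly g f atTop := by
      have := hlim 0
      simpa [show ∀ g : Set.Icc (0 : ℝ) 1 → K, der 0 g = g from fun g => by funext x; simp [der]]
        using this
    choose c hc using fun k => (hg k).1
    have hcau : CauchySeq c := by
      rw [Metric.cauchySeq_iff']
      intro ε hε
      obtain ⟨N, hN⟩ := eventually_atTop.mp (Metric.tendstoUniformly_iff.mp h0 (ε / 8) (by linarith))
      refine ⟨N, fun n hn => ?_⟩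
      rw [dist_eq_norm]
      refine lt_of_le_of_lt (hge _ (ε / 4) fun x => ?_) (by linarith)
      rw [map_sub, hc, hc, Pi.sub_apply, ← dist_eq_norm]
      linarith [dist_triangle_left (g n x) (g N x) (f x), hN n hn x, hN N le_rfl x]
    obtain ⟨c0, hc0⟩ := cauchySeq_tendsto_of_complete hcau
    refine ⟨c0, funext fun x => ?_⟩
    have h1 : Tendsto (fun k => g k x) atTop (𝓝 (Phi M c0 x)) := by
      rw [tendsto_iff_norm_sub_tendsto_zero] at hc0 ⊢
      refine squeeze_zero (fun _ => norm_nonneg _) (fun k => ?_) (by simpa using hc0.const_mul 2)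
      rw [← hc k, ← Pi.sub_apply, ← map_sub]
      exact hle _ x
    exact tendsto_nhds_unique h1 (h0.tendsto_at x)
  · rintro g ⟨⟨c, rfl⟩, hs⟩ hg0 x
    have hc : (c : ℕ → K) ≠ 0 := by
      intro h
      apply hg0
      rw [show c = 0 from DFunLike.coe_injective h, map_zero]
    have h1 := hM c ‖c‖ c.norm_coe_le_norm hc (ContDiffOn.congr hs (ext_eq (WW M c)).symm) x x.2
    rw [← h1]
    congr 2
    funext n
    rw [der, ← iteratedDerivWithin_congr (ext_eq (WW M c)) x.2]
    rfl

end Pool.Agent.Results.MP_ffb385_an.Spaceable
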